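import Pool.Agent.LogMono.Defs

/-!
# Logarithms of length `k` with monotone doubling: proofs

The doubling is `n ↦ 2 n` on the lower half; on the upper half `(k/2, k]` it takes odd values
prime to `n`. So it can be monotone on the upper half only if `k + 1` or `2 k + 1` is prime, with
a stability version (blocks that miss `r` elements) and the resulting count.
-/

namespace Pool.Agent.LogMono

variable {A : Type*} [AddCommGroup A]

theorem coprime_doubling {k : ℕ} {f : ℕ → A} (hf : IsLogFn k f)
    (hinj : Set.InjOn f (Set.Icc 1 k)) {n t : ℕ} (hn : k < 2 * n) (hnk : n ≤ k)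
    (ht : t ∈ Set.Icc 1 k) (h : f t = f 2 + f n) : Nat.Coprime t (2 * n) := by
  obtain ⟨ht1, htk⟩ := ht
  by_contra hc
  obtain ⟨q, hq, hqt, hqn⟩ := Nat.Prime.not_coprime_iff_dvd.mp hc
  rcases (Nat.Prime.dvd_mul hq).mp hqn with h2 | hn'
  · have hq2 : q = 2 := (Nat.prime_dvd_prime_iff_eq hq Nat.prime_two).mp h2
    subst hq2
    obtain ⟨s, rfl⟩ := hqt
    have hs : 1 ≤ s := by omega
    have h1 := hf 2 s (by omega) hs htk
    rw [h1] at h
    have h2 : f s = f n := add_left_cancel h
    have h3 := hinj (show s ∈ Set.Icc 1 k from ⟨hs, by omega⟩) (show n ∈ Set.Icc 1 k from ⟨by omega, hnk⟩) h2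
    omega
  · obtain ⟨s, rfl⟩ := hqt
    obtain ⟨m, rfl⟩ := hn'
    have hq2 := hq.two_le
    have hs : 1 ≤ s := by
      rcases Nat.eq_zero_or_pos s with h0 | h0
      · subst h0; omega
      · exact h0
    have hm : 1 ≤ m := by
      rcases Nat.eq_zero_or_pos m with h0 | h0
      · subst h0; omega
      · exact h0
    have h1 := hf q s (by omega) hs htk
    have h2 := hf q m (by omega) hm hnk
    have h2m : 2 * m ≤ k := le_trans (Nat.mul_le_mul_right m hq2) hnk
    have h3 := hf 2 m (by omega) hm h2m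
    have hsk : s ≤ k := le_trans (Nat.le_mul_of_pos_left s (by omega)) htk
    have h4 : f s = f (2 * m) := by
      rw [h3]
      rw [h1, h2] at h
      have : f q + f s = f q + (f 2 + f m) := by rw [h]; abel
      exact add_left_cancel this
    have h5 := hinj (show s ∈ Set.Icc 1 k from ⟨hs, hsk⟩)
      (show 2 * m ∈ Set.Icc 1 k from ⟨by omega, h2m⟩) h4
    subst h5
    have : q * (2 * m) = 2 * (q * m) := by ring
    omega

/-- the modular rule `T n = |2 n - N|` fails at every `n` that is not prime to `N`. -/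
theorem modular_fails {k : ℕ} {f : ℕ → A} (hf : IsLogFn k f)
    (hinj : Set.InjOn f (Set.Icc 1 k)) {N : ℕ} (hN : Odd N) {n t : ℕ} (hn1 : 1 ≤ n) (hnk : n ≤ k)
    (ht : t ∈ Set.Icc 1 k) (htN : (t : ℤ) = |2 * (n : ℤ) - N|) (h : f t = f 2 + f n) :
    k < 2 * n ∧ Nat.Coprime n N := by
  have hcases : t + N = 2 * n ∨ t + 2 * n = N := by
    rcases abs_cases (2 * (n : ℤ) - N) with ⟨h1, _⟩ | ⟨h1, _⟩
    · left; omega
    · right; omega
  obtain ⟨r, hr⟩ := hN
  have hn : k < 2 * n := by
    by_contra hc
    have h2 := hf 2 n (by omega) hn1 (by omega)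
    rw [← h2] at h
    have h3 := hinj ht (show 2 * n ∈ Set.Icc 1 k from ⟨by omega, by omega⟩) h
    omega
  refine ⟨hn, ?_⟩
  have hc := coprime_doubling hf hinj hn hnk ht h
  have hc2 : Nat.Coprime t n := Nat.Coprime.coprime_mul_left_right hc
  by_contra hcc
  obtain ⟨q, hq, hqn, hqN⟩ := Nat.Prime.not_coprime_iff_dvd.mp hcc
  have hqt : q ∣ t := by
    rcases hcases with h1 | h1
    · exact (Nat.dvd_add_left hqN).mp (h1 ▸ Dvd.dvd.mul_left hqn 2)
    · exact (Nat.dvd_add_left (Dvd.dvd.mul_left hqn 2)).mp (h1 ▸ hqN)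
  have := Nat.dvd_gcd hqt hqn
  rw [hc2] at this
  exact hq.one_lt.ne' (Nat.dvd_one.mp this)


/-- if the rule `T n = |2 n - N|` holds at `L` consecutive `n`, where `N > 1` is odd and
`N ≤ L ^ 2`, then `N` is prime. -/
theorem block_prime {k : ℕ} {f : ℕ → A} (hf : IsLogFn k f)
    (hinj : Set.InjOn f (Set.Icc 1 k)) {N : ℕ} (hN : Odd N) (hN1 : 1 < N) {a L : ℕ}
    (hL : N ≤ L ^ 2)
    (h : ∀ n : ℕ, a < n → n ≤ a + L → n ≤ k ∧
      ∃ t ∈ Set.Icc 1 k, (t : ℤ) = |2 * (n : ℤ) - N| ∧ f t = f 2 + f n) : N.Prime := by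
  by_contra hp
  have hsq := Nat.minFac_sq_le_self (by omega : 0 < N) hp
  have hq : N.minFac.Prime := Nat.minFac_prime (by omega)
  have hqL : N.minFac ≤ L := by
    by_contra hc
    have h1 : L < N.minFac := by omega
    have h2 : L ^ 2 < N.minFac ^ 2 := Nat.pow_lt_pow_left h1 (by omega)
    omega
  have h1 : a < N.minFac * (a / N.minFac + 1) := Nat.lt_mul_div_succ a hq.pos
  have h2 : N.minFac * (a / N.minFac + 1) ≤ a + L := by
    have := Nat.mul_div_le a N.minFac
    rw [Nat.mul_add]
    omega
  obtain ⟨hnk, t, ht, htN, hft⟩ := h _ h1 h2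
  obtain ⟨_, hc⟩ := modular_fails hf hinj hN (by omega) hnk ht htN hft
  have := Nat.dvd_gcd (Dvd.intro (a / N.minFac + 1) rfl) (Nat.minFac_dvd N)
  rw [hc] at this
  exact hq.one_lt.ne' (Nat.dvd_one.mp this)

/-- the doubling as a function -/
theorem exists_doubling {k : ℕ} {f : ℕ → A} (hf : IsLog k f) :
    ∃ T : ℕ → ℕ, ∀ n, T n ∈ Set.Icc 1 k ∧ f (T n) = f 2 + f n := by
  have : ∀ n, ∃ t, t ∈ Set.Icc 1 k ∧ f t = f 2 + f n := by
    intro n
    obtain ⟨t, ht, hft⟩ := hf.2.surjOn (Set.mem_univ (f 2 + f n))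
    exact ⟨t, ht, hft⟩
  choose T hT using this
  exact ⟨T, hT⟩

theorem prime_of_increasing {k : ℕ} (hk : 2 ≤ k) {f : ℕ → A} (hf : IsLog k f)
    (h : IncreasesOn k f (k / 2) k) : (k + 1).Prime := by
  obtain ⟨T, hT⟩ := exists_doubling hf
  have hlog := hf.1
  have hinj := hf.2.injOn
  have hodd : ∀ n, k < 2 * n → n ≤ k → T n % 2 = 1 := by
    intro n h1 h2
    have h3 := coprime_doubling hlog hinj h1 h2 (hT n).1 (hT n).2
    have h4 : Nat.Coprime (T n) 2 := Nat.Coprime.coprime_mul_right_right h3
    exact Nat.odd_iff.mp (Nat.coprime_two_right.mp h4)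
  have hstep : ∀ j n, k < 2 * n → n + j ≤ k → T n + 2 * j ≤ T (n + j) := by
    intro j
    induction j with
    | zero => intro n _ _; simp
    | succ j ih =>
      intro n h1 h2
      have h3 := ih n h1 (by omega)
      have h4 := h (n + j) (n + j + 1) (T (n + j)) (T (n + j + 1)) (by omega) (by omega)
        (by omega) (hT _).1 (hT _).1 (hT _).2 (hT _).2
      have h5 := hodd (n + j) (by omega) (by omega)
      have h6 := hodd (n + j + 1) (by omega) (by omega)
      have h7 : n + (j + 1) = n + j + 1 := by ring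
      rw [h7]
      omega
  have hlow : ∀ n, k < 2 * n → n ≤ k → 1 + 2 * (n - (k / 2 + 1)) ≤ T n := by
    intro n h1 h2
    have h3 := hstep (n - (k / 2 + 1)) (k / 2 + 1) (by omega) (by omega)
    have h4 : k / 2 + 1 + (n - (k / 2 + 1)) = n := by omega
    rw [h4] at h3
    have h5 := (hT (k / 2 + 1)).1.1
    omega
  have hup : ∀ n, k < 2 * n → n ≤ k → T n + 2 * (k - n) ≤ T k := by
    intro n h1 h2
    have h3 := hstep (k - n) n h1 (by omega)
    have h4 : n + (k - n) = k := by omega
    rw [h4] at h3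
    exact h3
  have hTk := (hT k).1.2
  have hTk1 := hodd k (by omega) le_rfl
  rcases Nat.even_or_odd k with ⟨c, hc⟩ | ⟨c, hc⟩
  · have heq : ∀ n, k < 2 * n → n ≤ k → T n + (k + 1) = 2 * n := by
      intro n h1 h2
      have h3 := hlow n h1 h2
      have h4 := hup n h1 h2
      omega
    by_contra hp
    have hsq := Nat.minFac_sq_le_self (by omega : 0 < k + 1) hp
    have hq : (k + 1).minFac.Prime := Nat.minFac_prime (by omega)
    have hq2 := hq.two_le
    have hqd := Nat.minFac_dvd (k + 1)
    set q := (k + 1).minFac with hqdef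
    have h2q : 2 * q ≤ k + 1 := by nlinarith
    have h1 : k < 2 * (k + 1 - q) := by omega
    have h2 : k + 1 - q ≤ k := by omega
    have h3 := coprime_doubling hlog hinj h1 h2 (hT _).1 (hT _).2
    have h4 := heq _ h1 h2
    have h5 : q ∣ k + 1 - q := Nat.dvd_sub hqd (dvd_refl q)
    have h6 : q ∣ T (k + 1 - q) :=
      (Nat.dvd_add_left hqd).mp (h4 ▸ Dvd.dvd.mul_left h5 2)
    have h7 := Nat.dvd_gcd h6 (Dvd.dvd.mul_left h5 2)
    rw [h3] at h7
    exact hq.one_lt.ne' (Nat.dvd_one.mp h7)
  · exfalso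
    have h1 := hlow k (by omega) le_rfl
    have h2 : T k = k := by omega
    have h3 := (hT k).2
    rw [h2] at h3
    have h4 : f 2 = 0 := by
      have : f 2 + f k = 0 + f k := by rw [← h3, zero_add]
      exact add_right_cancel this
    have h5 : f 1 = 0 := by
      have h6 := hlog 1 1 le_rfl le_rfl (by omega)
      have h7 : f 1 + 0 = f 1 + f 1 := by simpa using h6
      exact (add_left_cancel h7).symm
    have h6 := hinj (show 2 ∈ Set.Icc 1 k from ⟨by omega, hk⟩)
      (show 1 ∈ Set.Icc 1 k from ⟨le_rfl, by omega⟩) (by rw [h4, h5])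
    omega

theorem prime_of_decreasing {k : ℕ} (hk : 2 ≤ k) {f : ℕ → A} (hf : IsLog k f)
    (h : DecreasesOn k f (k / 2) k) : (2 * k + 1).Prime := by
  obtain ⟨T, hT⟩ := exists_doubling hf
  have hlog := hf.1
  have hinj := hf.2.injOn
  have hodd : ∀ n, k < 2 * n → n ≤ k → T n % 2 = 1 := by
    intro n h1 h2
    have h3 := coprime_doubling hlog hinj h1 h2 (hT n).1 (hT n).2
    have h4 : Nat.Coprime (T n) 2 := Nat.Coprime.coprime_mul_right_right h3
    exact Nat.odd_iff.mp (Nat.coprime_two_right.mp h4)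
  have hstep : ∀ j n, k < 2 * n → n + j ≤ k → T (n + j) + 2 * j ≤ T n := by
    intro j
    induction j with
    | zero => intro n _ _; simp
    | succ j ih =>
      intro n h1 h2
      have h3 := ih n h1 (by omega)
      have h4 := h (n + j) (n + j + 1) (T (n + j)) (T (n + j + 1)) (by omega) (by omega)
        (by omega) (hT _).1 (hT _).1 (hT _).2 (hT _).2
      have h5 := hodd (n + j) (by omega) (by omega)
      have h6 := hodd (n + j + 1) (by omega) (by omega)
      have h7 : n + (j + 1) = n + j + 1 := by ring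
      rw [h7]
      omega
  have hup : ∀ n, k < 2 * n → n ≤ k → T n + 2 * (n - (k / 2 + 1)) ≤ T (k / 2 + 1) := by
    intro n h1 h2
    have h3 := hstep (n - (k / 2 + 1)) (k / 2 + 1) (by omega) (by omega)
    have h4 : k / 2 + 1 + (n - (k / 2 + 1)) = n := by omega
    rw [h4] at h3
    exact h3
  have hlow : ∀ n, k < 2 * n → n ≤ k → 1 + 2 * (k - n) ≤ T n := by
    intro n h1 h2
    have h3 := hstep (k - n) n h1 (by omega)
    have h4 : n + (k - n) = k := by omega
    rw [h4] at h3
    have h5 := (hT k).1.1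
    omega
  have hT0 := (hT (k / 2 + 1)).1.2
  have hT1 := hodd (k / 2 + 1) (by omega) (by omega)
  have heq : ∀ n, k < 2 * n → n ≤ k → T n + 2 * n = 2 * k + 1 := by
    intro n h1 h2
    have h3 := hlow n h1 h2
    have h4 := hup n h1 h2
    omega
  by_contra hp
  have hsq := Nat.minFac_sq_le_self (by omega : 0 < 2 * k + 1) hp
  have hq : (2 * k + 1).minFac.Prime := Nat.minFac_prime (by omega)
  have hq2 := hq.two_le
  have hqd := Nat.minFac_dvd (2 * k + 1)
  set q := (2 * k + 1).minFac with hqdef
  have hqodd : q % 2 = 1 := by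
    rcases hq.eq_two_or_odd with h0 | h0
    · rw [h0] at hqd; omega
    · exact h0
  have h3q : 3 * q ≤ 2 * k + 1 := by nlinarith [show 3 ≤ q by omega]
  obtain ⟨s, hs⟩ : ∃ s, q = 2 * s + 1 := ⟨q / 2, by omega⟩
  have h1 : k < 2 * (k - s) := by omega
  have h2 : k - s ≤ k := by omega
  have h3 := coprime_doubling hlog hinj h1 h2 (hT _).1 (hT _).2
  have h4 := heq _ h1 h2
  have h5 : T (k - s) = q := by omega
  rw [h5] at h3 h4
  have h6 : q ∣ 2 * (k - s) := (Nat.dvd_add_right (dvd_refl q)).mp (h4 ▸ hqd)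
  have h7 := Nat.dvd_gcd (dvd_refl q) h6
  rw [h3] at h7
  exact hq.one_lt.ne' (Nat.dvd_one.mp h7)

/-- **Stability, increasing case.** If the doubling increases on a block `(u, v]` of the upper
half `(k/2, k]` that misses only `r` of its elements, and the block has at least `(r + 1) L`
elements with `k + 1 + 2 r ≤ L ^ 2`, then there is a prime at distance at most `2 r` from
`2 ⌊k/2⌋ + 1`. -/
theorem prime_near_of_increasing {k : ℕ} {f : ℕ → A} (hf : IsLog k f) {u v r L : ℕ}
    (hu : k / 2 ≤ u) (hv : v ≤ k) (hr : u + (k - k / 2) ≤ v + r)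
    (hL : u + (r + 1) * L ≤ v) (hL2 : k + 1 + 2 * r ≤ L ^ 2)
    (h : IncreasesOn k f u v) :
    ∃ N : ℕ, N.Prime ∧ 2 * (k / 2) + 1 ≤ N + 2 * r ∧ N ≤ 2 * (k / 2) + 1 + 2 * r := by
  obtain ⟨T, hT⟩ := exists_doubling hf
  have hlog := hf.1
  have hinj := hf.2.injOn
  have hodd : ∀ n, u < n → n ≤ v → T n % 2 = 1 := by
    intro n h1 h2
    have h3 := coprime_doubling hlog hinj (by omega) (by omega) (hT n).1 (hT n).2
    have h4 : Nat.Coprime (T n) 2 := Nat.Coprime.coprime_mul_right_right h3
    exact Nat.odd_iff.mp (Nat.coprime_two_right.mp h4)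
  have hstep : ∀ j n, u < n → n + j ≤ v → T n + 2 * j ≤ T (n + j) := by
    intro j
    induction j with
    | zero => intro n _ _; simp
    | succ j ih =>
      intro n h1 h2
      have h3 := ih n h1 (by omega)
      have h4 := h (n + j) (n + j + 1) (T (n + j)) (T (n + j + 1)) (by omega) (by omega)
        (by omega) (hT _).1 (hT _).1 (hT _).2 (hT _).2
      have h5 := hodd (n + j) (by omega) (by omega)
      have h6 := hodd (n + j + 1) (by omega) (by omega)
      have h7 : n + (j + 1) = n + j + 1 := by ring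
      rw [h7]
      omega
  have hL1 : 2 ≤ L := by
    by_contra hc
    have : L = 0 ∨ L = 1 := by omega
    rcases this with h0 | h0
    · subst h0; simp at hL2
    · subst h0
      have : k = 0 := by simp at hL2; omega
      subst this
      simp at hv
      subst hv
      simp at hL
  -- one of the `r + 1` consecutive sub-blocks of length `L` has the smallest possible growth
  have hblock : ∃ j, j ≤ r ∧
      T (u + j * L + L) = T (u + j * L + 1) + 2 * (L - 1) := by
    by_contra hc
    push Not at hc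
    have hgrow : ∀ j, j ≤ r → 1 + 2 * (j * L + L - 1) + 2 * (j + 1) ≤ T (u + j * L + L) := by
      intro j
      induction j with
      | zero =>
        intro _
        have h1 := hc 0 (by omega)
        have h2 := hstep (L - 1) (u + 0 * L + 1) (by omega) (by
          have : (r + 1) * L = r * L + L := by ring
          omega)
        have h3 : u + 0 * L + 1 + (L - 1) = u + 0 * L + L := by omega
        rw [h3] at h2
        have h4 := (hT (u + 0 * L + 1)).1.1
        have h5 := hodd (u + 0 * L + 1) (by omega) (by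
          have : (r + 1) * L = r * L + L := by ring
          omega)
        have h6 := hodd (u + 0 * L + L) (by omega) (by
          have : (r + 1) * L = r * L + L := by ring
          omega)
        omega
      | succ j ih =>
        intro hj
        have hjL : (j + 1) * L + L ≤ (r + 1) * L := by
          have h1 : (j + 1) * L + L = (j + 1 + 1) * L := by ring
          rw [h1]
          exact Nat.mul_le_mul_right L (by omega)
        have h0 := ih (by omega)
        have h1 := hc (j + 1) hj
        have e1 : (j + 1) * L = j * L + L := by ring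
        have h2 := hstep (L - 1) (u + (j + 1) * L + 1) (by omega) (by omega)
        have h3 : u + (j + 1) * L + 1 + (L - 1) = u + (j + 1) * L + L := by omega
        rw [h3] at h2
        have h7 := hstep 1 (u + j * L + L) (by omega) (by omega)
        have h8 : u + j * L + L + 1 = u + (j + 1) * L + 1 := by omega
        rw [h8] at h7
        have h5 := hodd (u + (j + 1) * L + 1) (by omega) (by omega)
        have h6 := hodd (u + (j + 1) * L + L) (by omega) (by omega)
        omega
    have h1 := hgrow r le_rfl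
    have h2 : u + r * L + L = u + (r + 1) * L := by ring
    have h3 := hstep (v - (u + r * L + L)) (u + r * L + L) (by omega) (by omega)
    have h4 : u + r * L + L + (v - (u + r * L + L)) = v := by omega
    rw [h4] at h3
    have h5 := (hT v).1.2
    have h6 := hodd v (by omega) le_rfl
    omega
  obtain ⟨j, hj, hjT⟩ := hblock
  have hjL : j * L + L ≤ (r + 1) * L := by
    have h1 : j * L + L = (j + 1) * L := by ring
    rw [h1]
    exact Nat.mul_le_mul_right L (by omega)
  -- on it the doubling is `n ↦ 2 n - N`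
  have hlin : ∀ n, u + j * L < n → n ≤ u + j * L + L →
      T n + 2 * (u + j * L + 1) = 2 * n + T (u + j * L + 1) := by
    intro n h1 h2
    have h3 := hstep (n - (u + j * L + 1)) (u + j * L + 1) (by omega) (by omega)
    have h4 : u + j * L + 1 + (n - (u + j * L + 1)) = n := by omega
    rw [h4] at h3
    have h5 := hstep (u + j * L + L - n) n (by omega) (by omega)
    have h6 : n + (u + j * L + L - n) = u + j * L + L := by omega
    rw [h6] at h5
    omega
  have hT0 : T (u + j * L + 1) < 2 * (u + j * L + 1) := by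
    have h1 := (hT (u + j * L + 1)).1.2
    omega
  have hlo := hstep (j * L) (u + 1) (by omega) (by omega)
  have e2 : u + 1 + j * L = u + j * L + 1 := by ring
  rw [e2] at hlo
  have hlo1 := (hT (u + 1)).1.1
  have hhi := hstep (v - (u + j * L + 1)) (u + j * L + 1) (by omega) (by omega)
  have e3 : u + j * L + 1 + (v - (u + j * L + 1)) = v := by omega
  rw [e3] at hhi
  have hhi1 := (hT v).1.2
  have hodd0 := hodd (u + j * L + 1) (by omega) (by omega)
  have hoddv := hodd v (by omega) le_rfl
  obtain ⟨N, hN⟩ : ∃ N, T (u + j * L + 1) + N = 2 * (u + j * L + 1) :=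
    ⟨2 * (u + j * L + 1) - T (u + j * L + 1), by omega⟩
  have hN1 : N ≠ 1 := by
    intro h1
    subst h1
    have h2 := hlin (u + j * L + L) (by omega) le_rfl
    have h3 := (hT (u + j * L + L)).1.2
    omega
  refine ⟨N, ?_, by omega, by omega⟩
  refine block_prime hlog hinj (N := N) (Nat.odd_iff.mpr (by omega)) (by omega)
    (a := u + j * L) (L := L) (by omega) ?_
  intro n h1 h2
  have h3 := hlin n h1 h2
  refine ⟨by omega, T n, (hT n).1, ?_, (hT n).2⟩
  have h4 : T n + N = 2 * n := by omega
  rw [abs_of_nonneg (by omega)]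
  omega

/-- **Stability, decreasing case.** -/
theorem prime_near_of_decreasing {k : ℕ} {f : ℕ → A} (hf : IsLog k f) {u v r L : ℕ}
    (hu : k / 2 ≤ u) (hv : v ≤ k) (hr : u + (k - k / 2) ≤ v + r)
    (hL : u + (r + 1) * L ≤ v) (hL2 : 2 * k + 1 + 2 * r ≤ L ^ 2)
    (h : DecreasesOn k f u v) :
    ∃ N : ℕ, N.Prime ∧ 2 * k + 1 ≤ N + 2 * r ∧ N ≤ 2 * k + 1 + 2 * r := by
  obtain ⟨T, hT⟩ := exists_doubling hf
  have hlog := hf.1
  have hinj := hf.2.injOn
  have hodd : ∀ n, u < n → n ≤ v → T n % 2 = 1 := by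
    intro n h1 h2
    have h3 := coprime_doubling hlog hinj (by omega) (by omega) (hT n).1 (hT n).2
    have h4 : Nat.Coprime (T n) 2 := Nat.Coprime.coprime_mul_right_right h3
    exact Nat.odd_iff.mp (Nat.coprime_two_right.mp h4)
  have hstep : ∀ j n, u < n → n + j ≤ v → T (n + j) + 2 * j ≤ T n := by
    intro j
    induction j with
    | zero => intro n _ _; simp
    | succ j ih =>
      intro n h1 h2
      have h3 := ih n h1 (by omega)
      have h4 := h (n + j) (n + j + 1) (T (n + j)) (T (n + j + 1)) (by omega) (by omega)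
        (by omega) (hT _).1 (hT _).1 (hT _).2 (hT _).2
      have h5 := hodd (n + j) (by omega) (by omega)
      have h6 := hodd (n + j + 1) (by omega) (by omega)
      have h7 : n + (j + 1) = n + j + 1 := by ring
      rw [h7]
      omega
  have hL1 : 1 ≤ L := by
    rcases Nat.eq_zero_or_pos L with h0 | h0
    · subst h0; simp at hL2
    · exact h0
  have huv : u < v := by
    have : (r + 1) * L = r * L + L := by ring
    omega
  have hblock : ∃ j, j ≤ r ∧
      T (u + j * L + 1) = T (u + j * L + L) + 2 * (L - 1) := by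
    by_contra hc
    push Not at hc
    have hgrow : ∀ j, j ≤ r →
        T (u + j * L + L) + 2 * (j * L + L - 1) + 2 * (j + 1) ≤ T (u + 1) := by
      intro j
      induction j with
      | zero =>
        intro _
        have h1 := hc 0 (by omega)
        have h2 := hstep (L - 1) (u + 0 * L + 1) (by omega) (by
          have : (r + 1) * L = r * L + L := by ring
          omega)
        have h3 : u + 0 * L + 1 + (L - 1) = u + 0 * L + L := by omega
        rw [h3] at h2
        have h5 := hodd (u + 0 * L + 1) (by omega) (by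
          have : (r + 1) * L = r * L + L := by ring
          omega)
        have h6 := hodd (u + 0 * L + L) (by omega) (by
          have : (r + 1) * L = r * L + L := by ring
          omega)
        have h8 : u + 0 * L + 1 = u + 1 := by omega
        rw [h8] at h1 h2 h5
        omega
      | succ j ih =>
        intro hj
        have hjL : (j + 1) * L + L ≤ (r + 1) * L := by
          have h1 : (j + 1) * L + L = (j + 1 + 1) * L := by ring
          rw [h1]
          exact Nat.mul_le_mul_right L (by omega)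
        have h0 := ih (by omega)
        have h1 := hc (j + 1) hj
        have e1 : (j + 1) * L = j * L + L := by ring
        have h2 := hstep (L - 1) (u + (j + 1) * L + 1) (by omega) (by omega)
        have h3 : u + (j + 1) * L + 1 + (L - 1) = u + (j + 1) * L + L := by omega
        rw [h3] at h2
        have h7 := hstep 1 (u + j * L + L) (by omega) (by omega)
        have h8 : u + j * L + L + 1 = u + (j + 1) * L + 1 := by omega
        rw [h8] at h7
        have h5 := hodd (u + (j + 1) * L + 1) (by omega) (by omega)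
        have h6 := hodd (u + (j + 1) * L + L) (by omega) (by omega)
        omega
    have h1 := hgrow r le_rfl
    have h2 : u + r * L + L = u + (r + 1) * L := by ring
    have h3 := hstep (v - (u + r * L + L)) (u + r * L + L) (by omega) (by omega)
    have h4 : u + r * L + L + (v - (u + r * L + L)) = v := by omega
    rw [h4] at h3
    have h5 := (hT (u + 1)).1.2
    have h6 := hodd (u + 1) (by omega) (by omega)
    have h7 := (hT v).1.1
    omega
  obtain ⟨j, hj, hjT⟩ := hblock
  have hjL : j * L + L ≤ (r + 1) * L := by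
    have h1 : j * L + L = (j + 1) * L := by ring
    rw [h1]
    exact Nat.mul_le_mul_right L (by omega)
  have hlin : ∀ n, u + j * L < n → n ≤ u + j * L + L →
      T n + 2 * n = 2 * (u + j * L + 1) + T (u + j * L + 1) := by
    intro n h1 h2
    have h3 := hstep (n - (u + j * L + 1)) (u + j * L + 1) (by omega) (by omega)
    have h4 : u + j * L + 1 + (n - (u + j * L + 1)) = n := by omega
    rw [h4] at h3
    have h5 := hstep (u + j * L + L - n) n (by omega) (by omega)
    have h6 : n + (u + j * L + L - n) = u + j * L + L := by omega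
    rw [h6] at h5
    omega
  have hlo := hstep (j * L) (u + 1) (by omega) (by omega)
  have e2 : u + 1 + j * L = u + j * L + 1 := by ring
  rw [e2] at hlo
  have hlo1 := (hT (u + 1)).1.2
  have hoddu := hodd (u + 1) (by omega) (by omega)
  have hhi := hstep (v - (u + j * L + 1)) (u + j * L + 1) (by omega) (by omega)
  have e3 : u + j * L + 1 + (v - (u + j * L + 1)) = v := by omega
  rw [e3] at hhi
  have hhi1 := (hT v).1.1
  have hodd0 := hodd (u + j * L + 1) (by omega) (by omega)
  obtain ⟨N, hN⟩ : ∃ N, N = 2 * (u + j * L + 1) + T (u + j * L + 1) := ⟨_, rfl⟩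
  refine ⟨N, ?_, by omega, by omega⟩
  refine block_prime hlog hinj (N := N) (Nat.odd_iff.mpr (by omega)) (by omega)
    (a := u + j * L) (L := L) (by omega) ?_
  intro n h1 h2
  have h3 := hlin n h1 h2
  refine ⟨by omega, T n, (hT n).1, ?_, (hT n).2⟩
  have h4 : T n + 2 * n = N := by omega
  rw [abs_of_nonpos (by omega)]
  omega

/-! ### the converse: the logarithms of Galovich and Stein -/

theorem bijOn_of_injOn {k : ℕ} (hk : k ≠ 0) (f : ℕ → ZMod k)
    (h : Set.InjOn f (Set.Icc 1 k)) : Set.BijOn f (Set.Icc 1 k) Set.univ := by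
  have : NeZero k := ⟨hk⟩
  refine ⟨fun _ _ => Set.mem_univ _, h, ?_⟩
  have h1 : ((Finset.Icc 1 k).image f).card = Fintype.card (ZMod k) := by
    rw [Finset.card_image_of_injOn (by simpa using h), Nat.card_Icc, ZMod.card]
    omega
  have h2 := Finset.eq_univ_of_card _ h1
  intro y _
  have h3 : y ∈ (Finset.Icc 1 k).image f := by rw [h2]; exact Finset.mem_univ y
  rw [Finset.mem_image] at h3
  obtain ⟨x, hx, hxy⟩ := h3
  exact ⟨x, by simpa using hx, hxy⟩

theorem exists_equiv (m p : ℕ) [Fact p.Prime] (hm : m + 1 = p) :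
    Nonempty ((ZMod p)ˣ ≃* Multiplicative (ZMod m)) := by
  have hc : Nat.card (ZMod p)ˣ = m := by
    rw [Nat.card_eq_fintype_card, ZMod.card_units p]
    omega
  subst hc
  exact ⟨(zmodCyclicMulEquiv (inferInstance : IsCyclic (ZMod p)ˣ)).symm⟩

open Classical in
/-- the unit of a number prime to `p` -/
noncomputable def unit (p n : ℕ) : (ZMod p)ˣ :=
  if h : Nat.Coprime n p then ZMod.unitOfCoprime n h else 1

theorem coe_unit {p n : ℕ} (hp : p.Prime) (h1 : 1 ≤ n) (h2 : n < p) :
    ((unit p n : (ZMod p)ˣ) : ZMod p) = (n : ZMod p) := by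
  have h : Nat.Coprime n p := (Nat.coprime_of_lt_prime (by omega) h2 hp).symm
  rw [unit, dif_pos h, ZMod.coe_unitOfCoprime]

theorem exists_log_of_prime {k : ℕ} (hk : 2 ≤ k) (hp : (k + 1).Prime) :
    ∃ f : ℕ → ZMod k, IsLog k f ∧ IncreasesOn k f (k / 2) k := by
  have : Fact (k + 1).Prime := ⟨hp⟩
  obtain ⟨e⟩ := exists_equiv k (k + 1) rfl
  let f : ℕ → ZMod k := fun n => Multiplicative.toAdd (e (unit (k + 1) n))
  have hadd : ∀ a b c : ℕ, 1 ≤ a → a ≤ k → 1 ≤ b → b ≤ k → 1 ≤ c → c ≤ k →
      (f c = f a + f b ↔ ((c : ℕ) : ZMod (k + 1)) = (a : ZMod (k + 1)) * b) := by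
    intro a b c ha1 ha hb1 hb hc1 hc
    have h1 : f c = f a + f b ↔ unit (k + 1) c = unit (k + 1) a * unit (k + 1) b := by
      constructor
      · intro h
        apply e.injective
        rw [map_mul]
        exact Multiplicative.toAdd.injective (by simpa [f] using h)
      · intro h
        simp only [f]
        rw [h, map_mul, toAdd_mul]
    rw [h1, Units.ext_iff, Units.val_mul, coe_unit hp ha1 (by omega), coe_unit hp hb1 (by omega),
      coe_unit hp hc1 (by omega)]
  have hlog : IsLogFn k f := by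
    intro a b ha hb hab
    have h1 : a ≤ k := le_trans (Nat.le_mul_of_pos_right a hb) hab
    have h2 : b ≤ k := le_trans (Nat.le_mul_of_pos_left b ha) hab
    rw [hadd a b (a * b) ha h1 hb h2 (Nat.mul_pos ha hb) hab]
    push_cast
    ring
  have hf1 : f 1 = 0 := by
    have h6 := hlog 1 1 le_rfl le_rfl (by omega)
    have h7 : f 1 + 0 = f 1 + f 1 := by simpa using h6
    exact (add_left_cancel h7).symm
  refine ⟨f, ⟨hlog, bijOn_of_injOn (by omega) f ?_⟩, ?_⟩
  · intro a ha b hb hab
    have h1 : f a = f b + f 1 := by rw [hf1, add_zero]; exact hab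
    rw [hadd b 1 a hb.1 hb.2 le_rfl (by omega) ha.1 ha.2] at h1
    have h2 : ((a : ℕ) : ZMod (k + 1)) = ((b : ℕ) : ZMod (k + 1)) := by simpa using h1
    rw [ZMod.natCast_eq_natCast_iff'] at h2
    rw [Nat.mod_eq_of_lt (by have := ha.2; omega), Nat.mod_eq_of_lt (by have := hb.2; omega)] at h2
    exact h2
  · have key : ∀ n t : ℕ, k < 2 * n → n ≤ k → t ∈ Set.Icc 1 k → f t = f 2 + f n →
        t + (k + 1) = 2 * n := by
      intro n t h1 h2 ht hft
      rw [hadd 2 n t (by omega) hk (by omega) h2 ht.1 ht.2] at hft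
      have h3 : ((t : ℕ) : ZMod (k + 1)) = ((2 * n - (k + 1) : ℕ) : ZMod (k + 1)) := by
        rw [hft, Nat.cast_sub (by omega)]
        push_cast
        have : ((k : ZMod (k + 1)) + 1) = 0 := by
          have := ZMod.natCast_self (k + 1)
          push_cast at this
          exact this
        rw [this]
        ring
      rw [ZMod.natCast_eq_natCast_iff'] at h3
      rw [Nat.mod_eq_of_lt (by have := ht.2; omega), Nat.mod_eq_of_lt (by omega)] at h3
      omega
    intro n n' t t' h1 h2 h3 ht ht' hft hft'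
    have h4 := key n t (by omega) (by omega) ht hft
    have h5 := key n' t' (by omega) h3 ht' hft'
    omega

theorem two_mul_eq_zero_of_cast {k : ℕ} (hk : 2 ≤ k) (z : ZMod (2 * k))
    (hz : ZMod.castHom (Dvd.intro_left 2 rfl : k ∣ 2 * k) (ZMod k) z = 0) : 2 * z = 0 := by
  have : NeZero (2 * k) := ⟨by omega⟩
  have h1 : (z.val : ZMod (2 * k)) = z := ZMod.natCast_zmod_val z
  rw [← h1, map_natCast, ZMod.natCast_eq_zero_iff] at hz
  obtain ⟨c, hc⟩ := hz
  rw [← h1, hc]
  have : (2 : ZMod (2 * k)) * ((k * c : ℕ) : ZMod (2 * k)) = ((2 * k * c : ℕ) : ZMod (2 * k)) := by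
    push_cast
    ring
  rw [this, ZMod.natCast_eq_zero_iff]
  exact Dvd.intro c rfl

theorem exists_log_of_prime' {k : ℕ} (hk : 2 ≤ k) (hp : (2 * k + 1).Prime) :
    ∃ f : ℕ → ZMod k, IsLog k f ∧ DecreasesOn k f (k / 2) k := by
  have : Fact (2 * k + 1).Prime := ⟨hp⟩
  obtain ⟨e⟩ := exists_equiv (2 * k) (2 * k + 1) rfl
  let g : ℕ → ZMod (2 * k) := fun n => Multiplicative.toAdd (e (unit (2 * k + 1) n))
  let c : ZMod (2 * k) →+* ZMod k := ZMod.castHom (Dvd.intro_left 2 rfl : k ∣ 2 * k) (ZMod k)
  let f : ℕ → ZMod k := fun n => c (g n)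
  have hlog : IsLogFn k f := by
    intro a b ha hb hab
    have h1 : a ≤ k := le_trans (Nat.le_mul_of_pos_right a hb) hab
    have h2 : b ≤ k := le_trans (Nat.le_mul_of_pos_left b ha) hab
    have h3 : unit (2 * k + 1) (a * b) = unit (2 * k + 1) a * unit (2 * k + 1) b := by
      rw [Units.ext_iff, Units.val_mul, coe_unit hp ha (by omega), coe_unit hp hb (by omega),
        coe_unit hp (Nat.mul_pos ha hb) (by omega)]
      push_cast
      ring
    have h4 : g (a * b) = g a + g b := by
      simp only [g]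
      rw [h3, map_mul, toAdd_mul]
    simp only [f]
    rw [h4, map_add]
  have hrel : ∀ x y z : ℕ, 1 ≤ x → x ≤ k → 1 ≤ y → y ≤ k → 1 ≤ z → z ≤ k →
      f z = f x + f y → (z : ZMod (2 * k + 1)) = (x : ZMod (2 * k + 1)) * y ∨
        (z : ZMod (2 * k + 1)) = -((x : ZMod (2 * k + 1)) * y) := by
    intro x y z hx1 hx hy1 hy hz1 hz h
    have h1 : c (g z - (g x + g y)) = 0 := by
      rw [map_sub, map_add]
      exact sub_eq_zero.mpr h
    have h2 := two_mul_eq_zero_of_cast hk _ h1
    have h3 : g z + g z = (g x + g y) + (g x + g y) := by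
      linear_combination h2
    have h4 : unit (2 * k + 1) z * unit (2 * k + 1) z =
        (unit (2 * k + 1) x * unit (2 * k + 1) y) * (unit (2 * k + 1) x * unit (2 * k + 1) y) := by
      apply e.injective
      apply Multiplicative.toAdd.injective
      simp only [map_mul, toAdd_mul]
      exact h3
    rw [Units.ext_iff] at h4
    simp only [Units.val_mul] at h4
    rw [coe_unit hp hx1 (by omega), coe_unit hp hy1 (by omega), coe_unit hp hz1 (by omega)] at h4
    exact mul_self_eq_mul_self_iff.mp h4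
  have hf1 : f 1 = 0 := by
    have h6 := hlog 1 1 le_rfl le_rfl (by omega)
    have h7 : f 1 + 0 = f 1 + f 1 := by simpa using h6
    exact (add_left_cancel h7).symm
  refine ⟨f, ⟨hlog, bijOn_of_injOn (by omega) f ?_⟩, ?_⟩
  · intro a ha b hb hab
    have h1 : f a = f b + f 1 := by rw [hf1, add_zero]; exact hab
    rcases hrel b 1 a hb.1 hb.2 le_rfl (by omega) ha.1 ha.2 h1 with h2 | h2
    · have h3 : ((a : ℕ) : ZMod (2 * k + 1)) = ((b : ℕ) : ZMod (2 * k + 1)) := by simpa using h2
      rw [ZMod.natCast_eq_natCast_iff'] at h3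
      rw [Nat.mod_eq_of_lt (by have := ha.2; omega),
        Nat.mod_eq_of_lt (by have := hb.2; omega)] at h3
      exact h3
    · exfalso
      have h3 : ((a + b : ℕ) : ZMod (2 * k + 1)) = 0 := by
        push_cast
        rw [h2]
        simp
      rw [ZMod.natCast_eq_zero_iff] at h3
      have h4 := Nat.le_of_dvd (by have := ha.1; omega) h3
      have h5 := ha.2
      have h6 := hb.2
      omega
  · have key : ∀ n t : ℕ, k < 2 * n → n ≤ k → t ∈ Set.Icc 1 k → f t = f 2 + f n →
        t + 2 * n = 2 * k + 1 := by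
      intro n t h1 h2 ht hft
      have ht1 := ht.1
      have ht2 := ht.2
      rcases hrel 2 n t (by omega) hk (by omega) h2 ht.1 ht.2 hft with h3 | h3
      · exfalso
        have h4 : ((t : ℕ) : ZMod (2 * k + 1)) = ((2 * n : ℕ) : ZMod (2 * k + 1)) := by
          rw [h3]; push_cast; ring
        rw [ZMod.natCast_eq_natCast_iff'] at h4
        rw [Nat.mod_eq_of_lt (by omega), Nat.mod_eq_of_lt (by omega)] at h4
        omega
      · have h4 : ((t + 2 * n : ℕ) : ZMod (2 * k + 1)) = 0 := by
          push_cast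
          rw [h3]
          ring
        rw [ZMod.natCast_eq_zero_iff] at h4
        obtain ⟨d, hd⟩ := h4
        have hd1 : d = 1 := by
          rcases Nat.lt_or_ge d 1 with h5 | h5
          · have : d = 0 := by omega
            subst this
            omega
          · rcases Nat.lt_or_ge 1 d with h6 | h6
            · exfalso
              have : (2 * k + 1) * 2 ≤ (2 * k + 1) * d := Nat.mul_le_mul_left _ h6
              omega
            · omega
        subst hd1
        omega
    intro n n' t t' h1 h2 h3 ht ht' hft hft'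
    have h4 := key n t (by omega) (by omega) ht hft
    have h5 := key n' t' (by omega) h3 ht' hft'
    omega

theorem prime_near {r k : ℕ} (hk : 16 * (r + 1) ^ 2 ≤ k) (h : NearlyMonotone r k) :
    ∃ N : ℕ, N.Prime ∧
      ((2 * (k / 2) + 1 ≤ N + 2 * r ∧ N ≤ 2 * (k / 2) + 1 + 2 * r) ∨
        (2 * k + 1 ≤ N + 2 * r ∧ N ≤ 2 * k + 1 + 2 * r)) := by
  obtain ⟨A, _, f, u, v, hf, hu, hv, hr, hmono⟩ := h
  set s := Nat.sqrt (2 * k + 1 + 2 * r) with hs
  have hs1 : s * s ≤ 2 * k + 1 + 2 * r := Nat.sqrt_le _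
  have hs2 : 2 * k + 1 + 2 * r < (s + 1) * (s + 1) := Nat.lt_succ_sqrt _
  have hmain : 2 * ((r + 1) * (s + 1) + r) ≤ k := by
    zify at *
    nlinarith [sq_nonneg (4 * ((r : ℤ) + 1) - s), sq_nonneg ((r : ℤ))]
  have hL : u + (r + 1) * (s + 1) ≤ v := by omega
  have hL2 : 2 * k + 1 + 2 * r ≤ (s + 1) ^ 2 := by rw [pow_two]; omega
  rcases hmono with h | h
  · obtain ⟨N, hN, h1, h2⟩ := prime_near_of_increasing hf hu hv hr hL (by omega) h
    exact ⟨N, hN, Or.inl ⟨h1, h2⟩⟩
  · obtain ⟨N, hN, h1, h2⟩ := prime_near_of_decreasing hf hu hv hr hL hL2 h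
    exact ⟨N, hN, Or.inr ⟨h1, h2⟩⟩

open Classical in
theorem count_bound (r x : ℕ) :
    ((Finset.range (x + 1)).filter (fun k => NearlyMonotone r k)).card ≤
      16 * (r + 1) ^ 2 + (6 * r + 8) * Nat.primeCounting (2 * x + 1 + 2 * r) := by
  set P := (Finset.range (2 * x + 1 + 2 * r + 1)).filter Nat.Prime with hP
  have hcardP : P.card = Nat.primeCounting (2 * x + 1 + 2 * r) := by
    rw [Nat.primeCounting, Nat.primeCounting', Nat.count_eq_card_filter_range]
  have hsub : (Finset.range (x + 1)).filter (fun k => NearlyMonotone r k) ⊆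
      Finset.range (16 * (r + 1) ^ 2) ∪
        P.biUnion (fun N => Finset.Icc (N - (2 * r + 1)) (N + 2 * r) ∪
          Finset.Icc ((N - 1) / 2 - r) ((N - 1) / 2 + r + 1)) := by
    intro k hk
    rw [Finset.mem_filter, Finset.mem_range] at hk
    rw [Finset.mem_union, Finset.mem_range]
    by_cases h0 : k < 16 * (r + 1) ^ 2
    · exact Or.inl h0
    · right
      obtain ⟨N, hN, h⟩ := prime_near (by omega) hk.2
      rw [Finset.mem_biUnion]
      refine ⟨N, ?_, ?_⟩
      · rw [hP, Finset.mem_filter, Finset.mem_range]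
        exact ⟨by omega, hN⟩
      · rw [Finset.mem_union, Finset.mem_Icc, Finset.mem_Icc]
        rcases h with h | h
        · left; omega
        · right; omega
  have h1 := Finset.card_le_card hsub
  have h2 := Finset.card_union_le (Finset.range (16 * (r + 1) ^ 2))
    (P.biUnion (fun N => Finset.Icc (N - (2 * r + 1)) (N + 2 * r) ∪
          Finset.Icc ((N - 1) / 2 - r) ((N - 1) / 2 + r + 1)))
  have h3 : (P.biUnion (fun N => Finset.Icc (N - (2 * r + 1)) (N + 2 * r) ∪
          Finset.Icc ((N - 1) / 2 - r) ((N - 1) / 2 + r + 1))).card ≤ P.card * (6 * r + 8) := by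
    apply Finset.card_biUnion_le_card_mul
    intro N _
    refine le_trans (Finset.card_union_le _ _) ?_
    rw [Nat.card_Icc, Nat.card_Icc]
    omega
  rw [Finset.card_range] at h2
  rw [hcardP] at h3
  have h4 : Nat.primeCounting (2 * x + 1 + 2 * r) * (6 * r + 8) =
    (6 * r + 8) * Nat.primeCounting (2 * x + 1 + 2 * r) := by ring
  omega

open Classical in
/-- for every `r` the number of `k ≤ x` in the class is `O(x / log x)`. -/
theorem density (r : ℕ) : ∃ C : ℝ, ∀ᶠ x : ℕ in Filter.atTop,
    (((Finset.range (x + 1)).filter (fun k => NearlyMonotone r k)).card : ℝ) ≤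
      C * x / Real.log x := by
  refine ⟨16 * ((r : ℝ) + 1) ^ 2 + (6 * r + 8) * ((Real.log 4 + 1) * 4), ?_⟩
  have hcheb := Chebyshev.eventually_primeCounting_le (ε := 1) one_pos
  have h4 : Filter.Tendsto (fun x : ℕ => (4 * (x : ℝ))) Filter.atTop Filter.atTop :=
    Filter.Tendsto.const_mul_atTop (by norm_num) tendsto_natCast_atTop_atTop
  have hlarge : ∀ᶠ x : ℕ in Filter.atTop, 3 + 2 * r ≤ x := Filter.eventually_ge_atTop _
  filter_upwards [h4.eventually hcheb, hlarge] with x hx hxl
  have hx3 : (3 : ℝ) ≤ x := by exact_mod_cast (by omega : 3 ≤ x)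
  have hlog : 0 < Real.log x := Real.log_pos (by linarith)
  have hlog4 : Real.log x ≤ Real.log (4 * x) := Real.log_le_log (by linarith) (by linarith)
  have hfl : ⌊4 * (x : ℝ)⌋₊ = 4 * x := by
    have : (4 * (x : ℝ)) = ((4 * x : ℕ) : ℝ) := by push_cast; ring
    rw [this, Nat.floor_natCast]
  rw [hfl] at hx
  have h1 : (Nat.primeCounting (2 * x + 1 + 2 * r) : ℝ) ≤ (Nat.primeCounting (4 * x) : ℝ) := by
    exact_mod_cast Nat.monotone_primeCounting (by omega)
  have hl4 : 0 ≤ Real.log 4 := Real.log_nonneg (by norm_num)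
  have h2 : (Nat.primeCounting (2 * x + 1 + 2 * r) : ℝ) ≤
      (Real.log 4 + 1) * 4 * (x / Real.log x) := by
    refine le_trans h1 (le_trans hx ?_)
    have h3 : (Real.log 4 + 1) * (4 * (x : ℝ)) / Real.log (4 * x) ≤
        (Real.log 4 + 1) * (4 * (x : ℝ)) / Real.log x :=
      div_le_div_of_nonneg_left (by positivity) hlog hlog4
    refine le_trans h3 (le_of_eq ?_)
    ring
  have h5 : (1 : ℝ) ≤ x / Real.log x := by
    rw [le_div_iff₀ hlog, one_mul]
    have := Real.log_le_sub_one_of_pos (show (0 : ℝ) < x by linarith)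
    linarith
  have h6 : (((Finset.range (x + 1)).filter (fun k => NearlyMonotone r k)).card : ℝ) ≤
      16 * ((r : ℝ) + 1) ^ 2 + (6 * r + 8) * (Nat.primeCounting (2 * x + 1 + 2 * r) : ℝ) := by
    exact_mod_cast count_bound r x
  refine le_trans h6 ?_
  have h7 : (16 * ((r : ℝ) + 1) ^ 2 + (6 * r + 8) * ((Real.log 4 + 1) * 4)) * x / Real.log x =
      16 * ((r : ℝ) + 1) ^ 2 * (x / Real.log x) +
        (6 * r + 8) * ((Real.log 4 + 1) * 4 * (x / Real.log x)) := by ring
  rw [h7]
  have h8 : 16 * ((r : ℝ) + 1) ^ 2 ≤ 16 * ((r : ℝ) + 1) ^ 2 * (x / Real.log x) :=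
    le_mul_of_one_le_right (by positivity) h5
  have h9 : (6 * (r : ℝ) + 8) * (Nat.primeCounting (2 * x + 1 + 2 * r) : ℝ) ≤
      (6 * r + 8) * ((Real.log 4 + 1) * 4 * (x / Real.log x)) :=
    mul_le_mul_of_nonneg_left h2 (by positivity)
  linarith

theorem nearlyMonotone_zero {k : ℕ} (hk : 2 ≤ k) :
    NearlyMonotone 0 k ↔ (k + 1).Prime ∨ (2 * k + 1).Prime := by
  constructor
  · rintro ⟨A, _, f, u, v, hf, hu, hv, hr, h | h⟩
    · obtain rfl : v = k := by omega
      obtain rfl : u = v / 2 := by omega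
      exact Or.inl (prime_of_increasing hk hf h)
    · obtain rfl : v = k := by omega
      obtain rfl : u = v / 2 := by omega
      exact Or.inr (prime_of_decreasing hk hf h)
  · rintro (h | h)
    · obtain ⟨f, hf, hmono⟩ := exists_log_of_prime hk h
      exact ⟨ZMod k, inferInstance, f, k / 2, k, hf, le_rfl, le_rfl, by omega, Or.inl hmono⟩
    · obtain ⟨f, hf, hmono⟩ := exists_log_of_prime' hk h
      exact ⟨ZMod k, inferInstance, f, k / 2, k, hf, le_rfl, le_rfl, by omega, Or.inr hmono⟩

end Pool.Agent.LogMono
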