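import Mathlib

/-!
# Logarithms of length `k` and their doubling: definitions

A logarithm `f` of length `k` defines the doubling `T` of `{1, …, k}` by `f (T n) = f 2 + f n`.
-/

namespace Pool.Agent.LogMono

/-- `f` is a logarithmic function of length `k` with values in the abelian group `A`. -/
def IsLogFn {A : Type*} [AddCommGroup A] (k : ℕ) (f : ℕ → A) : Prop :=
  ∀ a b : ℕ, 1 ≤ a → 1 ≤ b → a * b ≤ k → f (a * b) = f a + f b

/-- `f` is a logarithm of length `k` with values in the abelian group `A`: a logarithmic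
function of length `k` that maps `{1, …, k}` bijectively onto `A`. -/
def IsLog {A : Type*} [AddCommGroup A] (k : ℕ) (f : ℕ → A) : Prop :=
  IsLogFn k f ∧ Set.BijOn f (Set.Icc 1 k) Set.univ

/-- the doubling `T` (the element `T n` of `{1, …, k}` with `f (T n) = f 2 + f n`) is strictly
increasing on the integers `n` with `u < n ≤ v` -/
def IncreasesOn {A : Type*} [AddCommGroup A] (k : ℕ) (f : ℕ → A) (u v : ℕ) : Prop :=
  ∀ n n' t t' : ℕ, u < n → n < n' → n' ≤ v → t ∈ Set.Icc 1 k → t' ∈ Set.Icc 1 k →
    f t = f 2 + f n → f t' = f 2 + f n' → t < t'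

/-- the doubling `T` (the element `T n` of `{1, …, k}` with `f (T n) = f 2 + f n`) is strictly
decreasing on the integers `n` with `u < n ≤ v` -/
def DecreasesOn {A : Type*} [AddCommGroup A] (k : ℕ) (f : ℕ → A) (u v : ℕ) : Prop :=
  ∀ n n' t t' : ℕ, u < n → n < n' → n' ≤ v → t ∈ Set.Icc 1 k → t' ∈ Set.Icc 1 k →
    f t = f 2 + f n → f t' = f 2 + f n' → t' < t

/-- some abelian group carries a logarithm of length `k` whose doubling is strictly monotone on
a block of consecutive integers of the upper half `(k/2, k]` that misses at most `r` elements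
of the upper half -/
def NearlyMonotone (r k : ℕ) : Prop :=
  ∃ (A : Type) (_ : AddCommGroup A) (f : ℕ → A) (u v : ℕ), IsLog k f ∧
    k / 2 ≤ u ∧ v ≤ k ∧ u + (k - k / 2) ≤ v + r ∧ (IncreasesOn k f u v ∨ DecreasesOn k f u v)

end Pool.Agent.LogMono
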