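import Mathlib

namespace Pool.Agent.LogMono

/-- the distance of `x` to the nearest multiple of `N` (for `N ≥ 1`) -/
def nearDist (N x : ℕ) : ℕ := min (x % N) (N - x % N)

end Pool.Agent.LogMono
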