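import Pool.Agent.LogMono.Core
import Pool.Agent.LogMono.Near

/-!
# One modular multiplier: proofs

A logarithmic function of length `k`, injective on `{1, …, k}`, for which a single multiplier acts
as multiplication modulo `k + 1` (or modulo `2 k + 1` up to sign) forces that modulus to be prime;
for a composite modulus at least `c √k` places break the rule.
-/

namespace Pool.Agent.LogMono

variable {A : Type*} [AddCommGroup A]

theorem f_one {k : ℕ} {f : ℕ → A} (hf : IsLogFn k f) (hk : 1 ≤ k) : f 1 = 0 := by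
  have h6 := hf 1 1 le_rfl le_rfl (by omega)
  have h7 : f 1 + 0 = f 1 + f 1 := by simpa using h6
  exact (add_left_cancel h7).symm

/-- the step of the proof: no two relations of the same multiplier at `n` and `q n`. -/
theorem step {k : ℕ} {f : ℕ → A} (hf : IsLogFn k f) (hinj : Set.InjOn f (Set.Icc 1 k))
    {m n q r s : ℕ} (hq : 1 ≤ q) (hn : 1 ≤ n) (hqn : q * n ≤ k) (hr : r ∈ Set.Icc 1 k)
    (hs : 1 ≤ s) (hqs : q * s ≤ k) (h1 : f r = f m + f n) (h2 : f (q * s) = f m + f (q * n)) :
    r = s := by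
  have e1 := hf q s hq hs hqs
  have e2 := hf q n hq hn hqn
  have hsk : s ≤ k := le_trans (Nat.le_mul_of_pos_left s hq) hqs
  apply hinj hr (show s ∈ Set.Icc 1 k from ⟨hs, hsk⟩)
  rw [e1, e2] at h2
  have : f q + f s = f q + (f m + f n) := by rw [h2]; abel
  rw [h1]
  exact (add_left_cancel this).symm

theorem coprime_of_rule {k : ℕ} {f : ℕ → A}
    (hinj : Set.InjOn f (Set.Icc 1 k)) {m N : ℕ} {g : ℕ → ℕ} (hm : 2 ≤ m) (hmk : m ≤ k)
    (hkN : k < N) (hN : 1 < N) (hcomp : ¬ N.Prime) (hsmall : ∀ p, p.Prime → p ∣ N → N / p + 1 ≤ k)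
    (hg : ∀ x y, x % N = y % N → g x = g y)
    (h : ∀ n ∈ Set.Icc 1 k, (m * n) % N ≠ 0 → f (g (m * n)) = f m + f n) :
    Nat.Coprime m N := by
  by_contra hc
  obtain ⟨p, hp, hpm, hpN⟩ := Nat.Prime.not_coprime_iff_dvd.mp hc
  obtain ⟨m', rfl⟩ := hpm
  obtain ⟨s, rfl⟩ := hpN
  have hs : p * s / p = s := Nat.mul_div_cancel_left s hp.pos
  have hsk := hsmall p hp (Dvd.intro s rfl)
  rw [hs] at hsk
  have hs0 : 0 < s := by
    rcases Nat.eq_zero_or_pos s with h0 | h0
    · subst h0; omega
    · exact h0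
  have e1 : (p * m' * 1) % (p * s) = p * m' := by
    rw [mul_one]; exact Nat.mod_eq_of_lt (by omega)
  have e2 : (p * m' * (s + 1)) % (p * s) = (p * m' * 1) % (p * s) := by
    have : p * m' * (s + 1) = p * m' * 1 + (p * s) * m' := by ring
    rw [this, Nat.add_mul_mod_self_left]
  have h1 := h 1 ⟨le_rfl, by omega⟩ (by rw [e1]; omega)
  have h2 := h (s + 1) ⟨by omega, hsk⟩ (by rw [e2, e1]; omega)
  rw [hg _ _ e2, h1] at h2
  have h3 := hinj (show 1 ∈ Set.Icc 1 k from ⟨le_rfl, by omega⟩)
    (show s + 1 ∈ Set.Icc 1 k from ⟨by omega, hsk⟩) (add_left_cancel h2)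
  omega

/-- one multiplier that acts as multiplication modulo `k + 1` makes `k + 1` prime. -/
theorem prime_of_rule {k : ℕ} {f : ℕ → A} (hf : IsLogFn k f)
    (hinj : Set.InjOn f (Set.Icc 1 k)) {m : ℕ} (hm : 2 ≤ m) (hmk : m ≤ k)
    (h : ∀ n ∈ Set.Icc 1 k, (m * n) % (k + 1) ≠ 0 → f ((m * n) % (k + 1)) = f m + f n) :
    (k + 1).Prime := by
  by_contra hp
  have hsq := Nat.minFac_sq_le_self (by omega : 0 < k + 1) hp
  have hq : (k + 1).minFac.Prime := Nat.minFac_prime (by omega)
  obtain ⟨M, hM⟩ := Nat.minFac_dvd (k + 1)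
  set q := (k + 1).minFac with hqdef
  have hq2 := hq.two_le
  have hqM : q ≤ M := by
    rw [pow_two] at hsq
    rw [hM] at hsq
    exact Nat.le_of_mul_le_mul_left hsq (by omega)
  have hN2 : 2 * M ≤ k + 1 := by rw [hM]; exact Nat.mul_le_mul_right M hq2
  have hcop : Nat.Coprime m (k + 1) := by
    refine coprime_of_rule hinj (g := fun x => x % (k + 1)) hm hmk (by omega) (by omega) hp ?_
      (fun x y hxy => hxy) h
    intro p hp' hpd
    have h2 := hp'.two_le
    obtain ⟨c, hc⟩ := hpd
    have h3 : (k + 1) / p = c := by rw [hc]; exact Nat.mul_div_cancel_left c hp'.pos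
    have h4 : 2 * c ≤ k + 1 := by rw [hc]; exact Nat.mul_le_mul_right c h2
    rw [h3]
    omega
  have hcopM : Nat.Coprime m M := Nat.Coprime.coprime_dvd_right (Dvd.intro_left q hM.symm) hcop
  have hB : ∃ n, 1 ≤ n ∧ n < M ∧ M ≤ (m * n) % (k + 1) := by
    by_cases hmM : M ≤ m
    · exact ⟨1, le_rfl, by omega, by rw [mul_one, Nat.mod_eq_of_lt (by omega)]; exact hmM⟩
    · refine ⟨(M - 1) / m + 1, Nat.le_add_left 1 _, ?_, ?_⟩
      · have : (M - 1) / m ≤ (M - 1) / 2 := Nat.div_le_div_left hm (by omega)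
        omega
      · have h1 : M - 1 < m * ((M - 1) / m + 1) := Nat.lt_mul_div_succ _ (by omega)
        have h2 : m * ((M - 1) / m) ≤ M - 1 := Nat.mul_div_le _ _
        have h3 : m * ((M - 1) / m + 1) = m * ((M - 1) / m) + m := by ring
        rw [Nat.mod_eq_of_lt (by omega)]
        omega
  obtain ⟨n, hn1, hnM, hr⟩ := hB
  have hs0 : (m * n) % M ≠ 0 := by
    intro h0
    have h1 := (Nat.Coprime.dvd_mul_left hcopM.symm).mp (Nat.dvd_of_mod_eq_zero h0)
    exact absurd (Nat.le_of_dvd hn1 h1) (by omega)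
  have hsM : (m * n) % M < M := Nat.mod_lt _ (by omega)
  have hqn : q * n ≤ k := by
    have : q * n < q * M := Nat.mul_lt_mul_of_pos_left hnM (by omega)
    omega
  have hqs : q * ((m * n) % M) ≤ k := by
    have : q * ((m * n) % M) < q * M := Nat.mul_lt_mul_of_pos_left hsM (by omega)
    omega
  have hmod : (m * (q * n)) % (k + 1) = q * ((m * n) % M) := by
    rw [hM, ← Nat.mul_mod_mul_left]
    congr 1
    ring
  have h1 := h n ⟨hn1, by omega⟩ (by omega)
  have h2 := h (q * n) ⟨Nat.mul_pos (by omega) hn1, hqn⟩ (by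
    rw [hmod]
    exact Nat.mul_ne_zero (by omega) hs0)
  rw [hmod] at h2
  have h3 := step hf hinj (m := m) (by omega) hn1 hqn
    (r := (m * n) % (k + 1)) (s := (m * n) % M)
    ⟨by omega, Nat.lt_succ_iff.mp (Nat.mod_lt _ (by omega))⟩ (Nat.pos_of_ne_zero hs0) hqs h1 h2
  omega

theorem nearDist_mul (q M x : ℕ) : nearDist (q * M) (q * x) = q * nearDist M x := by
  unfold nearDist
  rw [Nat.mul_mod_mul_left, ← Nat.mul_sub]
  rcases le_total (x % M) (M - x % M) with h | h
  · rw [min_eq_left h, min_eq_left (Nat.mul_le_mul_left q h)]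
  · rw [min_eq_right h, min_eq_right (Nat.mul_le_mul_left q h)]

/-- one multiplier that acts as multiplication modulo `2 k + 1` up to sign makes `2 k + 1`
prime. -/
theorem prime_of_rule' {k : ℕ} {f : ℕ → A} (hf : IsLogFn k f)
    (hinj : Set.InjOn f (Set.Icc 1 k)) {m : ℕ} (hm : 2 ≤ m) (hmk : m ≤ k)
    (h : ∀ n ∈ Set.Icc 1 k, (m * n) % (2 * k + 1) ≠ 0 →
      f (nearDist (2 * k + 1) (m * n)) = f m + f n) :
    (2 * k + 1).Prime := by
  by_contra hp
  have hsq := Nat.minFac_sq_le_self (by omega : 0 < 2 * k + 1) hp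
  have hq : (2 * k + 1).minFac.Prime := Nat.minFac_prime (by omega)
  obtain ⟨M, hM⟩ := Nat.minFac_dvd (2 * k + 1)
  set q := (2 * k + 1).minFac with hqdef
  have hodd3 : ∀ p, p.Prime → p ∣ 2 * k + 1 → 3 ≤ p := by
    intro p hp' hpd
    have h2 := hp'.two_le
    by_contra hc
    have : p = 2 := by omega
    subst this
    omega
  have hq3 : 3 ≤ q := hodd3 q hq (Nat.minFac_dvd (2 * k + 1))
  have hqM : q ≤ M := by
    rw [pow_two] at hsq
    rw [hM] at hsq
    exact Nat.le_of_mul_le_mul_left hsq (by omega)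
  have hN3 : 3 * M ≤ 2 * k + 1 := by rw [hM]; exact Nat.mul_le_mul_right M hq3
  have hMdvd : M ∣ 2 * k + 1 := Dvd.intro_left q hM.symm
  have hModd : M % 2 = 1 := by
    by_contra hc
    have h2 : 2 ∣ M := Nat.dvd_of_mod_eq_zero (by omega)
    have := dvd_trans h2 hMdvd
    omega
  have hcop : Nat.Coprime m (2 * k + 1) := by
    refine coprime_of_rule hinj (g := fun x => nearDist (2 * k + 1) x) hm hmk (by omega)
      (by omega) hp ?_ ?_ h
    · intro p hp' hpd
      have h2 := hodd3 p hp' hpd
      obtain ⟨c, hc⟩ := hpd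
      have h3 : (2 * k + 1) / p = c := by rw [hc]; exact Nat.mul_div_cancel_left c hp'.pos
      have h4 : 3 * c ≤ 2 * k + 1 := by rw [hc]; exact Nat.mul_le_mul_right c h2
      rw [h3]
      have : 9 ≤ 2 * k + 1 := by nlinarith
      omega
    · intro x y hxy
      simp only [nearDist, hxy]
  have hcopM : Nat.Coprime m M := Nat.Coprime.coprime_dvd_right hMdvd hcop
  obtain ⟨H, hH⟩ : ∃ H, M = 2 * H + 1 := ⟨M / 2, by omega⟩
  have hB : ∃ n, 1 ≤ n ∧ n ≤ H ∧ H < nearDist (2 * k + 1) (m * n) ∧
      nearDist (2 * k + 1) (m * n) ≤ k := by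
    by_cases hmH : H < m
    · refine ⟨1, le_rfl, by omega, ?_⟩
      have e1 : (m * 1) % (2 * k + 1) = m := by
        rw [mul_one]; exact Nat.mod_eq_of_lt (by omega)
      simp only [nearDist, e1]
      constructor
      · exact lt_min hmH (by omega)
      · exact le_trans (min_le_left _ _) hmk
    · have h1 : H < m * (H / m + 1) := Nat.lt_mul_div_succ _ (by omega)
      have h2 : m * (H / m) ≤ H := Nat.mul_div_le _ _
      have h3 : m * (H / m + 1) = m * (H / m) + m := by ring
      have h4 : H / m ≤ H / 2 := Nat.div_le_div_left hm (by omega)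
      have e1 : (m * (H / m + 1)) % (2 * k + 1) = m * (H / m + 1) :=
        Nat.mod_eq_of_lt (by omega)
      refine ⟨H / m + 1, Nat.le_add_left 1 _, by omega, ?_⟩
      simp only [nearDist, e1]
      constructor
      · exact lt_min h1 (by omega)
      · exact le_trans (min_le_left _ _) (by omega)
  obtain ⟨n, hn1, hnH, hr, hrk⟩ := hB
  have hs0 : (m * n) % M ≠ 0 := by
    intro h0
    have h1 := (Nat.Coprime.dvd_mul_left hcopM.symm).mp (Nat.dvd_of_mod_eq_zero h0)
    exact absurd (Nat.le_of_dvd hn1 h1) (by omega)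
  have hN0 : (m * n) % (2 * k + 1) ≠ 0 := by
    intro h0
    exact hs0 (Nat.mod_eq_zero_of_dvd (dvd_trans hMdvd (Nat.dvd_of_mod_eq_zero h0)))
  have hsM : (m * n) % M < M := Nat.mod_lt _ (by omega)
  have hsH : nearDist M (m * n) ≤ H := by
    unfold nearDist
    rcases le_total ((m * n) % M) (M - (m * n) % M) with h1 | h1
    · rw [min_eq_left h1]; omega
    · rw [min_eq_right h1]; omega
  have hs1 : 1 ≤ nearDist M (m * n) := by
    unfold nearDist
    exact le_min (Nat.pos_of_ne_zero hs0) (by omega)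
  have hqH : q * H ≤ k := by
    have : q * (2 * H + 1) = 2 * (q * H) + q := by ring
    rw [← hH] at this
    omega
  have hqn : q * n ≤ k := le_trans (Nat.mul_le_mul_left q hnH) hqH
  have hqs : q * nearDist M (m * n) ≤ k := le_trans (Nat.mul_le_mul_left q hsH) hqH
  have hmod : nearDist (2 * k + 1) (m * (q * n)) = q * nearDist M (m * n) := by
    rw [hM, ← nearDist_mul]
    congr 1
    ring
  have hmod0 : (m * (q * n)) % (2 * k + 1) ≠ 0 := by
    rw [hM]
    have : m * (q * n) = q * (m * n) := by ring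
    rw [this, Nat.mul_mod_mul_left]
    exact Nat.mul_ne_zero (by omega) hs0
  have h1 := h n ⟨hn1, by omega⟩ hN0
  have h2 := h (q * n) ⟨Nat.mul_pos (by omega) hn1, hqn⟩ hmod0
  rw [hmod] at h2
  have h3 := step hf hinj (m := m) (by omega) hn1 hqn
    (r := nearDist (2 * k + 1) (m * n)) (s := nearDist M (m * n))
    ⟨by omega, hrk⟩ hs1 hqs h1 h2
  omega

/-- counting lemma: many `n < M` have `m n mod N ≥ M`, given one good shift `δ`. -/
theorem shift_count {m N M δ : ℕ} (hδ : 1 ≤ δ) (hδM : 2 * δ ≤ M + 1)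
    (h1 : M ≤ (m * δ) % N) (h2 : (m * δ) % N ≤ N - M) :
    M ≤ 4 * ((Finset.Icc 1 (M - 1)).filter (fun n => M ≤ (m * n) % N)).card + 3 := by
  set F := (Finset.Icc 1 (M - 1)).filter (fun n => M ≤ (m * n) % N) with hF
  set G := (Finset.Icc 1 (M - 1)).filter (fun n => ¬ M ≤ (m * n) % N) with hG
  have hFG : F.card + G.card = M - 1 := by
    rw [hF, hG, Finset.card_filter_add_card_filter_not, Nat.card_Icc]
    omega
  have hG1 : (G.filter (fun n => n + δ ≤ M - 1)).card ≤ F.card := by
    apply Finset.card_le_card_of_injOn (fun n => n + δ)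
    · intro n hn
      simp only [hG, Finset.coe_filter, Finset.mem_filter, Finset.mem_Icc, Set.mem_ofPred_eq] at hn
      simp only [hF, Finset.coe_filter, Finset.mem_Icc, Set.mem_ofPred_eq]
      refine ⟨⟨by omega, hn.2⟩, ?_⟩
      have e1 : (m * (n + δ)) % N = ((m * n) % N + (m * δ) % N) % N := by
        rw [mul_add, Nat.add_mod]
      rw [e1, Nat.mod_eq_of_lt (by omega)]
      omega
    · intro x _ y _ hxy
      simp only at hxy
      omega
  have hG2 : (G.filter (fun n => ¬ n + δ ≤ M - 1)).card ≤ δ := by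
    have : G.filter (fun n => ¬ n + δ ≤ M - 1) ⊆ Finset.Ioc (M - 1 - δ) (M - 1) := by
      intro n hn
      simp only [hG, Finset.mem_filter, Finset.mem_Icc] at hn
      rw [Finset.mem_Ioc]
      omega
    have h3 := Finset.card_le_card this
    rw [Nat.card_Ioc] at h3
    omega
  have hG3 := Finset.card_filter_add_card_filter_not (s := G) (fun n => n + δ ≤ M - 1)
  omega

theorem mul_count {m N M : ℕ} (hM : 2 ≤ M) (hNM : 3 * M ≤ N) (hm : 2 ≤ m) (hmN : m < N) :
    M ≤ 4 * ((Finset.Icc 1 (M - 1)).filter (fun n => M ≤ (m * n) % N)).card + 3 := by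
  by_cases c1 : M ≤ m
  · by_cases c2 : m ≤ N - M
    · exact shift_count (δ := 1) le_rfl (by omega)
        (by rw [mul_one, Nat.mod_eq_of_lt hmN]; exact c1)
        (by rw [mul_one, Nat.mod_eq_of_lt hmN]; exact c2)
    · by_cases c3 : m = N - 1
      · have : (Finset.Icc 1 (M - 1)).filter (fun n => M ≤ (m * n) % N) =
            Finset.Icc 1 (M - 1) := by
          apply Finset.filter_true_of_mem
          intro n hn
          rw [Finset.mem_Icc] at hn
          have e1 : m * n = (N - n) + N * (n - 1) := by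
            subst c3
            obtain ⟨j, rfl⟩ : ∃ j, n = j + 1 := ⟨n - 1, by omega⟩
            obtain ⟨l, rfl⟩ : ∃ l, N = l + (j + 1) := ⟨N - (j + 1), by omega⟩
            have e2 : l + (j + 1) - 1 = l + j := by omega
            have e3 : l + (j + 1) - (j + 1) = l := by omega
            have e4 : j + 1 - 1 = j := by omega
            rw [e2, e3, e4]
            ring
          rw [e1, Nat.add_mul_mod_self_left, Nat.mod_eq_of_lt (by omega)]
          omega
        rw [this, Nat.card_Icc]
        omega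
      · obtain ⟨m', hm'⟩ : ∃ m', m + m' = N := ⟨N - m, by omega⟩
        have hm'2 : 2 ≤ m' := by omega
        have g1 : M - 1 < m' * ((M - 1) / m' + 1) := Nat.lt_mul_div_succ _ (by omega)
        have g2 : m' * ((M - 1) / m') ≤ M - 1 := Nat.mul_div_le _ _
        have g3 : m' * ((M - 1) / m' + 1) = m' * ((M - 1) / m') + m' := by ring
        have g4 : (M - 1) / m' ≤ (M - 1) / 2 := Nat.div_le_div_left hm'2 (by omega)
        have hδ1 : 1 ≤ (M - 1) / m' + 1 := Nat.le_add_left 1 _
        set δ := (M - 1) / m' + 1 with hδdef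
        have e1 : (m * δ) % N = N - m' * δ := by
          have e2 : m * δ = (N - m' * δ) + N * (δ - 1) := by
            obtain ⟨j, hj⟩ : ∃ j, δ = j + 1 := ⟨δ - 1, by omega⟩
            obtain ⟨l, hl⟩ : ∃ l, N = l + m' * δ := ⟨N - m' * δ, by omega⟩
            have e3 : N - m' * δ = l := by omega
            have e4 : δ - 1 = j := by omega
            rw [e3, e4]
            have e5 : m * δ + m' * δ = N * δ := by rw [← hm']; ring
            have e6 : N * δ = N * j + N := by rw [hj]; ring
            omega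
          rw [e2, Nat.add_mul_mod_self_left, Nat.mod_eq_of_lt (by omega)]
        exact shift_count (δ := δ) hδ1 (by omega) (by omega) (by omega)
  · have g1 : M - 1 < m * ((M - 1) / m + 1) := Nat.lt_mul_div_succ _ (by omega)
    have g2 : m * ((M - 1) / m) ≤ M - 1 := Nat.mul_div_le _ _
    have g3 : m * ((M - 1) / m + 1) = m * ((M - 1) / m) + m := by ring
    have g4 : (M - 1) / m ≤ (M - 1) / 2 := Nat.div_le_div_left hm (by omega)
    have e1 : (m * ((M - 1) / m + 1)) % N = m * ((M - 1) / m + 1) := Nat.mod_eq_of_lt (by omega)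
    exact shift_count (δ := (M - 1) / m + 1) (Nat.le_add_left 1 _) (by omega) (by omega) (by omega)

open Classical in
/-- the gap: if `k + 1` is odd and composite, every multiplier prime to it breaks the modular
rule at `≥ (√(k + 1) - 3) / 8` places. -/
theorem gap {k : ℕ} {f : ℕ → A} (hf : IsLogFn k f)
    (hinj : Set.InjOn f (Set.Icc 1 k)) {m : ℕ} (hm : 2 ≤ m) (hmk : m ≤ k) (hk : Even k)
    (hp : ¬ (k + 1).Prime) (hcop : Nat.Coprime m (k + 1)) :
    k + 1 ≤ (8 * ((Finset.Icc 1 k).filter
      (fun n => f ((m * n) % (k + 1)) ≠ f m + f n)).card + 3) ^ 2 := by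
  have hsq := Nat.minFac_sq_le_self (by omega : 0 < k + 1) hp
  have hq : (k + 1).minFac.Prime := Nat.minFac_prime (by omega)
  obtain ⟨M, hM⟩ := Nat.minFac_dvd (k + 1)
  set q := (k + 1).minFac with hqdef
  have hq2 := hq.two_le
  have hq3 : 3 ≤ q := by
    by_contra hc
    have h2 : q = 2 := by omega
    rw [h2] at hM
    obtain ⟨c, hc⟩ := hk
    omega
  have hqM : q ≤ M := by
    rw [pow_two] at hsq
    rw [hM] at hsq
    exact Nat.le_of_mul_le_mul_left hsq (by omega)
  have hN3 : 3 * M ≤ k + 1 := by rw [hM]; exact Nat.mul_le_mul_right M hq3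
  have hMdvd : M ∣ k + 1 := Dvd.intro_left q hM.symm
  have hcopM : Nat.Coprime m M := Nat.Coprime.coprime_dvd_right hMdvd hcop
  have hcount := mul_count (m := m) (N := k + 1) (M := M) (by omega) hN3 hm (by omega)
  set F := (Finset.Icc 1 (M - 1)).filter (fun n => M ≤ (m * n) % (k + 1)) with hF
  set D := (Finset.Icc 1 k).filter (fun n => f ((m * n) % (k + 1)) ≠ f m + f n) with hD
  have hFD : F.card ≤ 2 * D.card := by
    have h1 : (F.filter (fun n => n ∈ D)).card ≤ D.card := by
      apply Finset.card_le_card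
      intro n hn
      exact (Finset.mem_filter.mp hn).2
    have h2 : (F.filter (fun n => ¬ n ∈ D)).card ≤ D.card := by
      apply Finset.card_le_card_of_injOn (fun n => q * n)
      · intro n hn
        rw [Finset.mem_coe, Finset.mem_filter] at hn
        obtain ⟨hnF, hnD⟩ := hn
        rw [hF, Finset.mem_filter, Finset.mem_Icc] at hnF
        obtain ⟨⟨hn1, hnM⟩, hr⟩ := hnF
        have hnk : n ≤ k := by omega
        have hrel : f ((m * n) % (k + 1)) = f m + f n := by
          by_contra hc
          exact hnD (by rw [hD, Finset.mem_filter, Finset.mem_Icc]; exact ⟨⟨hn1, hnk⟩, hc⟩)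
        have hs0 : (m * n) % M ≠ 0 := by
          intro h0
          have h1 := (Nat.Coprime.dvd_mul_left hcopM.symm).mp (Nat.dvd_of_mod_eq_zero h0)
          exact absurd (Nat.le_of_dvd hn1 h1) (by omega)
        have hsM : (m * n) % M < M := Nat.mod_lt _ (by omega)
        have hqn : q * n ≤ k := by
          have : q * n < q * M := Nat.mul_lt_mul_of_pos_left (by omega) (by omega)
          omega
        have hqs : q * ((m * n) % M) ≤ k := by
          have : q * ((m * n) % M) < q * M := Nat.mul_lt_mul_of_pos_left hsM (by omega)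
          omega
        have hmod : (m * (q * n)) % (k + 1) = q * ((m * n) % M) := by
          rw [hM, ← Nat.mul_mod_mul_left]
          congr 1
          ring
        rw [Finset.mem_coe, hD, Finset.mem_filter, Finset.mem_Icc]
        refine ⟨⟨Nat.mul_pos (by omega) hn1, hqn⟩, ?_⟩
        intro h2
        rw [hmod] at h2
        have h3 := step hf hinj (m := m) (by omega) hn1 hqn
          (r := (m * n) % (k + 1)) (s := (m * n) % M)
          ⟨by omega, Nat.lt_succ_iff.mp (Nat.mod_lt _ (by omega))⟩
          (Nat.pos_of_ne_zero hs0) hqs hrel h2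
        omega
      · intro x _ y _ hxy
        simp only at hxy
        exact Nat.eq_of_mul_eq_mul_left (by omega) hxy
    have h3 := Finset.card_filter_add_card_filter_not (s := F) (fun n => n ∈ D)
    omega
  have h8 : M ≤ 8 * D.card + 3 := by omega
  calc k + 1 = q * M := hM
    _ ≤ M * M := Nat.mul_le_mul_right M hqM
    _ ≤ (8 * D.card + 3) * (8 * D.card + 3) := Nat.mul_le_mul h8 h8
    _ = (8 * D.card + 3) ^ 2 := by ring

theorem near_shift_count {m N H δ : ℕ} (hδ : 1 ≤ δ) (hδM : 2 * δ ≤ H + 2)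
    (h1 : 2 * H + 1 ≤ (m * δ) % N) (h2 : (m * δ) % N ≤ N - (2 * H + 1)) (hN : 3 * (2 * H + 1) ≤ N) :
    H ≤ 4 * ((Finset.Icc 1 H).filter (fun n => H < nearDist N (m * n))).card + 2 := by
  set F := (Finset.Icc 1 H).filter (fun n => H < nearDist N (m * n)) with hF
  set G := (Finset.Icc 1 H).filter (fun n => ¬ H < nearDist N (m * n)) with hG
  have hFG : F.card + G.card = H := by
    rw [hF, hG, Finset.card_filter_add_card_filter_not, Nat.card_Icc]
    omega
  have hG1 : (G.filter (fun n => n + δ ≤ H)).card ≤ F.card := by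
    apply Finset.card_le_card_of_injOn (fun n => n + δ)
    · intro n hn
      simp only [hG, Finset.coe_filter, Finset.mem_filter, Finset.mem_Icc, Set.mem_ofPred_eq] at hn
      simp only [hF, Finset.coe_filter, Finset.mem_Icc, Set.mem_ofPred_eq]
      refine ⟨⟨by omega, hn.2⟩, ?_⟩
      have e1 : (m * (n + δ)) % N = ((m * n) % N + (m * δ) % N) % N := by
        rw [mul_add, Nat.add_mod]
      have ha : (m * n) % N < N := Nat.mod_lt _ (by omega)
      have hsmall : (m * n) % N ≤ H ∨ N - (m * n) % N ≤ H := by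
        by_contra hc
        push Not at hc
        exact hn.1.2 (lt_min hc.1 hc.2)
      unfold nearDist
      rw [e1]
      rcases hsmall with h3 | h3
      · rw [Nat.mod_eq_of_lt (by omega)]
        exact lt_min (by omega) (by omega)
      · have e2 : ((m * n) % N + (m * δ) % N) % N = (m * n) % N + (m * δ) % N - N := by
          rw [Nat.mod_eq_sub_mod (by omega), Nat.mod_eq_of_lt (by omega)]
        rw [e2]
        exact lt_min (by omega) (by omega)
    · intro x _ y _ hxy
      simp only at hxy
      omega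
  have hG2 : (G.filter (fun n => ¬ n + δ ≤ H)).card ≤ δ := by
    have : G.filter (fun n => ¬ n + δ ≤ H) ⊆ Finset.Ioc (H - δ) H := by
      intro n hn
      simp only [hG, Finset.mem_filter, Finset.mem_Icc] at hn
      rw [Finset.mem_Ioc]
      omega
    have h3 := Finset.card_le_card this
    rw [Nat.card_Ioc] at h3
    omega
  have hG3 := Finset.card_filter_add_card_filter_not (s := G) (fun n => n + δ ≤ H)
  omega

theorem near_mul_count {m N H : ℕ} (hN : 3 * (2 * H + 1) ≤ N) (hm : 2 ≤ m)
    (hmN : m + (2 * H + 1) ≤ N) :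
    H ≤ 4 * ((Finset.Icc 1 H).filter (fun n => H < nearDist N (m * n))).card + 2 := by
  by_cases c1 : 2 * H + 1 ≤ m
  · exact near_shift_count (δ := 1) le_rfl (by omega)
      (by rw [mul_one, Nat.mod_eq_of_lt (by omega)]; exact c1)
      (by rw [mul_one, Nat.mod_eq_of_lt (by omega)]; omega) hN
  · by_cases c2 : 4 ≤ m
    · have g1 : 2 * H < m * ((2 * H) / m + 1) := Nat.lt_mul_div_succ _ (by omega)
      have g2 : m * ((2 * H) / m) ≤ 2 * H := Nat.mul_div_le _ _
      have g3 : m * ((2 * H) / m + 1) = m * ((2 * H) / m) + m := by ring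
      have g4 : (2 * H) / m ≤ (2 * H) / 4 := Nat.div_le_div_left c2 (by omega)
      have e1 : (m * ((2 * H) / m + 1)) % N = m * ((2 * H) / m + 1) :=
        Nat.mod_eq_of_lt (by omega)
      exact near_shift_count (δ := (2 * H) / m + 1) (Nat.le_add_left 1 _) (by omega) (by omega)
        (by omega) hN
    · have hsub : Finset.Ioc (H / 2) H ⊆
          (Finset.Icc 1 H).filter (fun n => H < nearDist N (m * n)) := by
        intro n hn
        rw [Finset.mem_Ioc] at hn
        rw [Finset.mem_filter, Finset.mem_Icc]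
        refine ⟨by omega, ?_⟩
        have hmn1 : 2 * n ≤ m * n := Nat.mul_le_mul_right n hm
        have hmn2 : m * n ≤ 3 * n := Nat.mul_le_mul_right n (by omega)
        unfold nearDist
        rw [Nat.mod_eq_of_lt (by omega)]
        exact lt_min (by omega) (by omega)
      have h3 := Finset.card_le_card hsub
      rw [Nat.card_Ioc] at h3
      omega

open Classical in
/-- the gap modulo `2 k + 1`: if `2 k + 1` is composite, every multiplier prime to it breaks the
rule `n ↦ |m n|` at `≥ (√(2 k + 1) - 5) / 16` places. -/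
theorem gap' {k : ℕ} {f : ℕ → A} (hf : IsLogFn k f)
    (hinj : Set.InjOn f (Set.Icc 1 k)) {m : ℕ} (hm : 2 ≤ m) (hmk : m ≤ k)
    (hp : ¬ (2 * k + 1).Prime) (hcop : Nat.Coprime m (2 * k + 1)) :
    2 * k + 1 ≤ (16 * ((Finset.Icc 1 k).filter
      (fun n => f (nearDist (2 * k + 1) (m * n)) ≠ f m + f n)).card + 5) ^ 2 := by
  have hsq := Nat.minFac_sq_le_self (by omega : 0 < 2 * k + 1) hp
  have hq : (2 * k + 1).minFac.Prime := Nat.minFac_prime (by omega)
  obtain ⟨M, hM⟩ := Nat.minFac_dvd (2 * k + 1)
  set q := (2 * k + 1).minFac with hqdef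
  have hq2 := hq.two_le
  have hq3 : 3 ≤ q := by
    by_contra hc
    have h2 : q = 2 := by omega
    rw [h2] at hM
    omega
  have hqM : q ≤ M := by
    rw [pow_two] at hsq
    rw [hM] at hsq
    exact Nat.le_of_mul_le_mul_left hsq (by omega)
  have hN3 : 3 * M ≤ 2 * k + 1 := by rw [hM]; exact Nat.mul_le_mul_right M hq3
  have hMdvd : M ∣ 2 * k + 1 := Dvd.intro_left q hM.symm
  have hModd : M % 2 = 1 := by
    by_contra hc
    have h2 : 2 ∣ M := Nat.dvd_of_mod_eq_zero (by omega)
    have := dvd_trans h2 hMdvd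
    omega
  have hcopM : Nat.Coprime m M := Nat.Coprime.coprime_dvd_right hMdvd hcop
  obtain ⟨H, hH⟩ : ∃ H, M = 2 * H + 1 := ⟨M / 2, by omega⟩
  have hqH : q * H ≤ k := by
    have : q * (2 * H + 1) = 2 * (q * H) + q := by ring
    rw [← hH] at this
    omega
  have hcount := near_mul_count (m := m) (N := 2 * k + 1) (H := H) (by omega) hm (by omega)
  set F := (Finset.Icc 1 H).filter (fun n => H < nearDist (2 * k + 1) (m * n)) with hF
  set D := (Finset.Icc 1 k).filter
    (fun n => f (nearDist (2 * k + 1) (m * n)) ≠ f m + f n) with hD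
  have hFD : F.card ≤ 2 * D.card := by
    have h1 : (F.filter (fun n => n ∈ D)).card ≤ D.card := by
      apply Finset.card_le_card
      intro n hn
      exact (Finset.mem_filter.mp hn).2
    have h2 : (F.filter (fun n => ¬ n ∈ D)).card ≤ D.card := by
      apply Finset.card_le_card_of_injOn (fun n => q * n)
      · intro n hn
        rw [Finset.mem_coe, Finset.mem_filter] at hn
        obtain ⟨hnF, hnD⟩ := hn
        rw [hF, Finset.mem_filter, Finset.mem_Icc] at hnF
        obtain ⟨⟨hn1, hnH⟩, hr⟩ := hnF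
        have hnk : n ≤ k := by omega
        have hrel : f (nearDist (2 * k + 1) (m * n)) = f m + f n := by
          by_contra hc
          exact hnD (by rw [hD, Finset.mem_filter, Finset.mem_Icc]; exact ⟨⟨hn1, hnk⟩, hc⟩)
        have hrk : nearDist (2 * k + 1) (m * n) ≤ k := by
          unfold nearDist
          have := Nat.mod_lt (m * n) (show 0 < 2 * k + 1 by omega)
          rcases Nat.lt_or_ge k ((m * n) % (2 * k + 1)) with h3 | h3
          · exact le_trans (min_le_right _ _) (by omega)
          · exact le_trans (min_le_left _ _) h3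
        have hs0 : (m * n) % M ≠ 0 := by
          intro h0
          have h1 := (Nat.Coprime.dvd_mul_left hcopM.symm).mp (Nat.dvd_of_mod_eq_zero h0)
          exact absurd (Nat.le_of_dvd hn1 h1) (by omega)
        have hsM : (m * n) % M < M := Nat.mod_lt _ (by omega)
        have hsH : nearDist M (m * n) ≤ H := by
          unfold nearDist
          rcases le_total ((m * n) % M) (M - (m * n) % M) with h1 | h1
          · rw [min_eq_left h1]; omega
          · rw [min_eq_right h1]; omega
        have hs1 : 1 ≤ nearDist M (m * n) := by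
          unfold nearDist
          exact le_min (Nat.pos_of_ne_zero hs0) (by omega)
        have hqn : q * n ≤ k := le_trans (Nat.mul_le_mul_left q hnH) hqH
        have hqs : q * nearDist M (m * n) ≤ k := le_trans (Nat.mul_le_mul_left q hsH) hqH
        have hmod : nearDist (2 * k + 1) (m * (q * n)) = q * nearDist M (m * n) := by
          rw [hM, ← nearDist_mul]
          congr 1
          ring
        rw [Finset.mem_coe, hD, Finset.mem_filter, Finset.mem_Icc]
        refine ⟨⟨Nat.mul_pos (by omega) hn1, hqn⟩, ?_⟩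
        intro h2
        rw [hmod] at h2
        have h3 := step hf hinj (m := m) (by omega) hn1 hqn
          (r := nearDist (2 * k + 1) (m * n)) (s := nearDist M (m * n))
          ⟨by omega, hrk⟩ hs1 hqs hrel h2
        omega
      · intro x _ y _ hxy
        simp only at hxy
        exact Nat.eq_of_mul_eq_mul_left (by omega) hxy
    have h3 := Finset.card_filter_add_card_filter_not (s := F) (fun n => n ∈ D)
    omega
  have h8 : M ≤ 16 * D.card + 5 := by omega
  calc 2 * k + 1 = q * M := hM
    _ ≤ M * M := Nat.mul_le_mul_right M hqM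
    _ ≤ (16 * D.card + 5) * (16 * D.card + 5) := Nat.mul_le_mul h8 h8
    _ = (16 * D.card + 5) ^ 2 := by ring

end Pool.Agent.LogMono
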